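import Pool.Agent.R196.PP.Pieces

/-!
MP_68f671_pr, pieces P6a and P6b (harmonic coordinates: existence, sup bound).
-/

namespace Pool.Agent.R196.PP

open Finset

theorem p6_sum_shift (f : Fin 4 → ℝ) : ∑ e, f (e + 2) = ∑ e, f e := by
  rw [Fin.sum_univ_four, Fin.sum_univ_four]
  show f 2 + f 3 + f 0 + f 1 = f 0 + f 1 + f 2 + f 3
  ring

theorem p6_stp_abs (e : Fin 4) : |(stp e).1| = 1 ∧ |(stp e).2| = 1 := by
  fin_cases e <;> simp [stp]

theorem p6_csum_congr {M N : ℕ} {A : Set Pt} {f g : Pt → ℝ} (h : ∀ v ∈ A, f v = g v) :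
    csum M N A f = csum M N A g := by
  unfold csum
  refine Finset.sum_congr rfl fun v hv => ?_
  simp only [Finset.mem_filter] at hv
  exact h v hv.2

theorem p6_csum_neg {M N : ℕ} {A : Set Pt} {f : Pt → ℝ} :
    csum M N A (fun v => -f v) = -csum M N A f := by
  unfold csum
  rw [Finset.sum_neg_distrib]

theorem P6a_holds (h3a : P3a) (h3b : P3b) (h4a : P4a) : P6a := by
  intro M N Lm A hG a b
  obtain ⟨hmem, hgp, htr, hneg, hinv⟩ := h3a M N Lm A hG
  obtain ⟨l, hl⟩ : ∃ l : Pt → ℝ, ∀ v : Pt, l v = a * v.1 + b * v.2 := ⟨_, fun _ => rfl⟩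
  obtain ⟨D, hD⟩ : ∃ D : Fin 4 → Pt → ℝ, ∀ e v, D e v = l (nb A v e) - l v :=
    ⟨_, fun _ _ => rfl⟩
  obtain ⟨V, hV⟩ : ∃ V : Pt → ℝ, ∀ v, V v = (1 / 4) * (D 0 v + D 1 v + D 2 v + D 3 v) :=
    ⟨_, fun _ => rfl⟩
  have hltr : ∀ (v : Pt) (i j : ℤ),
      l (v.1 + i * M, v.2 + j * N) = l v + (a * (i * M) + b * (j * N)) := by
    intro v i j
    rw [hl, hl]
    push_cast
    ring
  have hDtr : ∀ (e : Fin 4) (v : Pt) (i j : ℤ), D e (v.1 + i * M, v.2 + j * N) = D e v := by
    intro e v i j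
    rw [hD, hD, htr, hltr, hltr]
    ring
  have hDper : ∀ e, Per M N (D e) := by
    intro e
    constructor
    · intro v
      have := hDtr e v 1 0
      simpa using this
    · intro v
      have := hDtr e v 0 1
      simpa using this
  have hVper : Per M N V := by
    constructor
    · intro v
      rw [hV, hV, (hDper 0).1, (hDper 1).1, (hDper 2).1, (hDper 3).1]
    · intro v
      rw [hV, hV, (hDper 0).2, (hDper 1).2, (hDper 2).2, (hDper 3).2]
  have hDneg : ∀ e : Fin 4, csum M N A (D e) = -csum M N A (D (e + 2)) := by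
    intro e
    have h1 := h3b M N Lm A hG (D (e + 2)) (hDper _) e
    have h2 : csum M N A (D e) = csum M N A (fun v => -D (e + 2) (nb A v e)) := by
      refine p6_csum_congr fun v hv => ?_
      rw [hD, hD, hinv v hv e]
      ring
    rw [h2, p6_csum_neg, h1]
  have hVsum : csum M N A V = 0 := by
    have h1 : csum M N A V = (1 / 4) * (csum M N A (D 0) + csum M N A (D 1) + csum M N A (D 2) +
        csum M N A (D 3)) := by
      unfold csum
      rw [← Finset.sum_add_distrib, ← Finset.sum_add_distrib, ← Finset.sum_add_distrib,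
        Finset.mul_sum]
      exact Finset.sum_congr rfl fun v _ => hV v
    have h2 : csum M N A (D 0) = -csum M N A (D 2) := hDneg 0
    have h3 : csum M N A (D 1) = -csum M N A (D 3) := hDneg 1
    rw [h1, h2, h3]
    ring
  have hDb : ∀ e v, |D e v| ≤ (2 * Lm + 1) * (|a| + |b|) := by
    intro e v
    obtain ⟨k, hk1, hk2, hk3, hk4⟩ := hgp v e
    obtain ⟨hs1, hs2⟩ := p6_stp_abs e
    have h1 : D e v = k * (a * (stp e).1 + b * (stp e).2) := by
      rw [hD, hk3, hl, hl]
      simp only [Prod.fst_add, Prod.snd_add, Prod.smul_fst, Prod.smul_snd, smul_eq_mul]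
      push_cast
      ring
    have h2 : |a * (stp e).1 + b * (stp e).2| ≤ |a| + |b| := by
      refine (abs_add_le _ _).trans ?_
      rw [abs_mul, abs_mul]
      have h3 : |((stp e).1 : ℝ)| = 1 := by
        rw [← Int.cast_abs, hs1, Int.cast_one]
      have h4 : |((stp e).2 : ℝ)| = 1 := by
        rw [← Int.cast_abs, hs2, Int.cast_one]
      rw [h3, h4]
      linarith
    have hk : (k : ℝ) ≤ 2 * Lm + 1 := by exact_mod_cast hk2
    rw [h1, abs_mul, Nat.abs_cast]
    exact mul_le_mul hk h2 (abs_nonneg _) (by positivity)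
  have hVb : ∀ v ∈ A, |V v| ≤ (2 * Lm + 1) * (|a| + |b|) := by
    intro v _
    rw [hV, abs_mul]
    have h0 := hDb 0 v
    have h1 := hDb 1 v
    have h2 := hDb 2 v
    have h3 := hDb 3 v
    have h4 : |D 0 v + D 1 v + D 2 v + D 3 v| ≤ |D 0 v| + |D 1 v| + |D 2 v| + |D 3 v| :=
      (abs_add_le _ _).trans (add_le_add ((abs_add_le _ _).trans
        (add_le_add (abs_add_le _ _) le_rfl)) le_rfl)
    have h5 : |(1 / 4 : ℝ)| = 1 / 4 := abs_of_pos (by norm_num)
    rw [h5]
    linarith
  obtain ⟨h, hper, hpois, -⟩ := h4a M N Lm A hG V _ hVper hVsum hVb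
  -- the first version of the coordinate
  obtain ⟨ψ, hψ⟩ : ∃ ψ : Pt → ℝ, ∀ v, ψ v = l v + h v := ⟨_, fun _ => rfl⟩
  have hψharm : ∀ v ∈ A, ∑ e, grad (nb A) ψ v e = 0 := by
    intro v hv
    have h1 := hpois v hv
    unfold PR at h1
    rw [hV, hD, hD, hD, hD, Fin.sum_univ_four] at h1
    rw [Fin.sum_univ_four]
    unfold grad
    rw [hψ, hψ, hψ, hψ, hψ]
    linarith
  have hψM : ∀ v : Pt, ψ (v.1 + M, v.2) = ψ v + a * M := by
    intro v
    rw [hψ, hψ, hper.1]
    have := hltr v 1 0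
    simp only [one_mul, zero_mul, add_zero, Int.cast_one, Int.cast_zero, mul_zero] at this
    rw [this]
    ring
  have hψN : ∀ v : Pt, ψ (v.1, v.2 + N) = ψ v + b * N := by
    intro v
    rw [hψ, hψ, hper.2]
    have := hltr v 0 1
    simp only [one_mul, zero_mul, add_zero, zero_add, Int.cast_one, Int.cast_zero, mul_zero]
      at this
    rw [this]
    ring
  refine ⟨fun v => (ψ v - ψ (-v)) / 2, ?_, ?_, ?_, ?_⟩
  · intro v hv
    have h1 := hψharm v hv
    have h2 := hψharm (-v) ((hG.neg v).2 hv)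
    rw [← p6_sum_shift] at h2
    have h3 : ∀ e, grad (nb A) ψ (-v) (e + 2) = ψ (-nb A v e) - ψ (-v) := by
      intro e
      unfold grad
      rw [hneg]
    simp only [h3] at h2
    unfold grad at h1 ⊢
    rw [Fin.sum_univ_four] at h1 h2 ⊢
    linarith
  · intro v
    have h1 := hψM v
    have h2 := hψM (-(v.1 + (M : ℤ), v.2))
    have h3 : ((-(v.1 + (M : ℤ), v.2) : Pt).1 + (M : ℤ), (-(v.1 + (M : ℤ), v.2) : Pt).2) = -v := by
      ext <;> simp
    rw [h3] at h2
    show (ψ (v.1 + (M : ℤ), v.2) - ψ (-(v.1 + (M : ℤ), v.2))) / 2 = (ψ v - ψ (-v)) / 2 + a * M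
    linarith
  · intro v
    have h1 := hψN v
    have h2 := hψN (-(v.1, v.2 + (N : ℤ)))
    have h3 : ((-(v.1, v.2 + (N : ℤ)) : Pt).1, (-(v.1, v.2 + (N : ℤ)) : Pt).2 + (N : ℤ)) = -v := by
      ext <;> simp
    rw [h3] at h2
    show (ψ (v.1, v.2 + (N : ℤ)) - ψ (-(v.1, v.2 + (N : ℤ)))) / 2 = (ψ v - ψ (-v)) / 2 + b * N
    linarith
  · intro v
    show (ψ (-v) - ψ (- -v)) / 2 = -((ψ v - ψ (-v)) / 2)
    rw [neg_neg]
    ring

/-! ### P6b -/

theorem p6_mul {M N : ℕ} {A : Set Pt} {a b : ℝ} {φ : Pt → ℝ} (h : HC M N A a b φ) (v : Pt)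
    (i j : ℕ) : φ (v.1 + i * M, v.2 + j * N) = φ v + (a * (i * M) + b * (j * N)) := by
  have h1 : ∀ (w : Pt) (i : ℕ), φ (w.1 + i * M, w.2) = φ w + a * (i * M) := by
    intro w i
    induction i with
    | zero => simp
    | succ i ih =>
      have h2 := h.trM (w.1 + i * M, w.2)
      have h3 : (w.1 + ((i + 1 : ℕ) : ℤ) * M, w.2) = (w.1 + (i : ℤ) * M + M, w.2) := by
        ext
        · push_cast; ring
        · rfl
      rw [h3]
      simp only at h2
      rw [h2, ih]
      push_cast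
      ring
  have h2 : ∀ (w : Pt) (i : ℕ), φ (w.1, w.2 + i * N) = φ w + b * (i * N) := by
    intro w i
    induction i with
    | zero => simp
    | succ i ih =>
      have h2 := h.trN (w.1, w.2 + i * N)
      have h3 : (w.1, w.2 + ((i + 1 : ℕ) : ℤ) * N) = (w.1, w.2 + (i : ℤ) * N + N) := by
        ext
        · rfl
        · push_cast; ring
      rw [h3]
      simp only at h2
      rw [h2, ih]
      push_cast
      ring
  have h3 := h2 (v.1 + i * M, v.2) j
  simp only at h3
  rw [h3, h1]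
  ring

theorem p6_frame_tr {M N L : ℕ} {v : Pt} (hv : v ∈ frame M N L) (i j : ℤ) :
    ((v.1 + i * M, v.2 + j * N) : Pt) ∈ frame M N L := by
  obtain ⟨i', j', h⟩ := hv
  refine ⟨i' + i, j' + j, ?_⟩
  rw [← h]
  congr 2
  · show v.1 + i * M - (i' + i) * M = _
    ring
  · show v.2 + j * N - (j' + j) * N = _
    ring

/-- the bound at a frame point of the central square -/
theorem p6_bound (h5c : P5c) (M N Lm M' N' L' : ℕ) (A : Set Pt) (hG : GEnv M N Lm A)
    (hS : StepOK M N Lm M' N' L') (φ φ' : Pt → ℝ) (hodd : ∀ v, φ' (-v) = -φ' v)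
    (v : Pt) (hv : max |v.1| |v.2| = (L' : ℤ))
    (hharm : ∑ e, grad (nb (A \ hole M' N' L')) φ' v e = 0) (m U : ℝ)
    (hUv : φ' v - φ v = U)
    (hm : ∀ w ∈ A, |w.1| ≤ L' + 1 → |w.2| ≤ L' + 1 → |φ w| ≤ m)
    (hvA : v ∈ A)
    (hU : ∀ w ∈ A \ hole M' N' L', φ' w - φ w ≤ U)
    (hnbA : ∀ e, nb A v e ∈ A)
    (hnbA' : ∀ e, nb (A \ hole M' N' L') v e ∈ A \ hole M' N' L') :
    U ≤ 4 * m := by
  have hc := h5c M N Lm M' N' L' A hG hS v hv
  have h1 : |v.1| ≤ L' := (le_max_left _ _).trans_eq hv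
  have h2 : |v.2| ≤ L' := (le_max_right _ _).trans_eq hv
  have hL : (0 : ℤ) < L' := by
    have := hS.growL
    omega
  have hφv := hm v hvA (by omega) (by omega)
  have hφv' := abs_le.1 hφv
  -- outward neighbours
  have hout : ∀ e : Fin 4, ((stp e).1 * v.1 = L' ∨ (stp e).2 * v.2 = L') →
      φ' (nb (A \ hole M' N' L') v e) ≤ m + U := by
    intro e he
    obtain ⟨h3, h4⟩ := (hc e).1 he
    have h5 : nb A v e ∈ A := hnbA e
    have h6 : nb (A \ hole M' N' L') v e ∈ A \ hole M' N' L' := hnbA' e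
    have h7 := hU _ h6
    rw [h3] at h7 ⊢
    rw [h4] at h5
    obtain ⟨hs1, hs2⟩ := p6_stp_abs e
    have h8 : |(v + stp e).1| ≤ L' + 1 := by
      rw [Prod.fst_add]
      exact (abs_add_le _ _).trans (by omega)
    have h9 : |(v + stp e).2| ≤ L' + 1 := by
      rw [Prod.snd_add]
      exact (abs_add_le _ _).trans (by omega)
    have h10 := (abs_le.1 (hm _ h5 h8 h9)).2
    linarith
  rw [Fin.sum_univ_four] at hharm
  unfold grad at hharm
  have e0 : stp 0 = (1, 1) := rfl
  have e1 : stp 1 = (1, -1) := rfl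
  have e2 : stp 2 = (-1, -1) := rfl
  have e3 : stp 3 = (-1, 1) := rfl
  have o0 := hout 0
  have o1 := hout 1
  have o2 := hout 2
  have o3 := hout 3
  obtain ⟨-, a0, b0, c0⟩ := hc 0
  obtain ⟨-, a1, b1, c1⟩ := hc 1
  obtain ⟨-, a2, b2, c2⟩ := hc 2
  obtain ⟨-, a3, b3, c3⟩ := hc 3
  simp only [e0, e1, e2, e3, one_mul, neg_mul, mul_one, mul_neg, neg_neg] at o0 o1 o2 o3 a0 b0 c0 a1 b1 c1 a2 b2 c2 a3 b3 c3
  have hod : ∀ x y : ℤ, φ' (-x, -y) = -φ' (x, y) := fun x y => hodd (x, y)
  rcases lt_or_eq_of_le h2 with h2' | h2'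
  · -- `|v.2| < L'`, so `|v.1| = L'`
    have h1' : |v.1| = L' := by
      rcases max_choice |v.1| |v.2| with h | h
      · rw [h] at hv; exact hv
      · rw [h] at hv; omega
    rcases abs_eq hL.le |>.1 h1' with h | h
    · -- v.1 = L': 0, 1 outward
      have p0 := o0 (Or.inl h)
      have p1 := o1 (Or.inl h)
      have p2 := a2 ⟨by omega, h2'⟩
      have p3 := a3 ⟨by omega, h2'⟩
      rw [p2, p3] at hharm
      have := hod v.2 L'
      linarith
    · have p2 := o2 (Or.inl (by omega))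
      have p3 := o3 (Or.inl (by omega))
      have p0 := a0 ⟨by omega, h2'⟩
      have p1 := a1 ⟨by omega, h2'⟩
      rw [p0, p1] at hharm
      have := hod v.2 (-L')
      rw [neg_neg] at this
      linarith
  · rcases lt_or_eq_of_le h1 with h1' | h1'
    · rcases abs_eq hL.le |>.1 h2' with h | h
      · have p0 := o0 (Or.inr h)
        have p3 := o3 (Or.inr h)
        have p1 := b1 ⟨by omega, h1'⟩
        have p2 := b2 ⟨by omega, h1'⟩
        rw [p1, p2] at hharm
        have := hod L' v.1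
        linarith
      · have p1 := o1 (Or.inr (by omega))
        have p2 := o2 (Or.inr (by omega))
        have p0 := b0 ⟨by omega, h1'⟩
        have p3 := b3 ⟨by omega, h1'⟩
        rw [p0, p3] at hharm
        have := hod L' (-v.1)
        rw [neg_neg] at this
        linarith
    · -- corners
      have hv' := hodd v
      rcases abs_eq hL.le |>.1 h1' with h | h
      · rcases abs_eq hL.le |>.1 h2' with h' | h'
        · have p0 := o0 (Or.inl h)
          have p1 := o1 (Or.inl h)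
          have p3 := o3 (Or.inr h')
          have p2 := c2 ⟨by omega, by omega⟩
          rw [p2, hv'] at hharm
          linarith
        · have p0 := o0 (Or.inl h)
          have p1 := o1 (Or.inl h)
          have p2 := o2 (Or.inr (by omega))
          have p3 := c3 ⟨by omega, by omega⟩
          rw [p3, hv'] at hharm
          linarith
      · rcases abs_eq hL.le |>.1 h2' with h' | h'
        · have p2 := o2 (Or.inl (by omega))
          have p3 := o3 (Or.inl (by omega))
          have p0 := o0 (Or.inr h')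
          have p1 := c1 ⟨by omega, by omega⟩
          rw [p1, hv'] at hharm
          linarith
        · have p2 := o2 (Or.inl (by omega))
          have p3 := o3 (Or.inl (by omega))
          have p1 := o1 (Or.inr (by omega))
          have p0 := c0 ⟨by omega, by omega⟩
          rw [p0, hv'] at hharm
          linarith

theorem P6b_holds (h3a : P3a) (h4b : P4b) (h5a : P5a) (h5b : P5b) (h5c : P5c) : P6b := by
  intro M N Lm M' N' L' A hG hS a b φ φ' hφ hφ' B hB
  have hG' := h5a M N Lm M' N' L' A hG hS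
  obtain ⟨hoff, hfr⟩ := h5b M N Lm M' N' L' A hG hS
  have h3 := h3a M N Lm A hG
  have h3' := h3a M' N' L' _ hG'
  obtain ⟨A', hA'⟩ : ∃ A', A' = A \ hole M' N' L' := ⟨_, rfl⟩
  have hφ'2 := hφ'
  rw [← hA'] at hG' hoff hfr h3' hφ'2 ⊢
  obtain ⟨u, hu⟩ : ∃ u : Pt → ℝ, ∀ v, u v = φ' v - φ v := ⟨_, fun _ => rfl⟩
  obtain ⟨c, hc⟩ := hS.dM
  obtain ⟨d, hd⟩ := hS.dN
  have hper : Per M' N' u := by
    constructor
    · intro v
      rw [hu, hu, hφ'2.trM]
      have h1 := p6_mul hφ v c 0
      have h2 : ((v.1 + (c : ℤ) * M, v.2 + ((0 : ℕ) : ℤ) * N) : Pt) = (v.1 + M', v.2) := by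
        ext
        · show v.1 + (c : ℤ) * M = v.1 + M'
          rw [hc]; push_cast; ring
        · simp
      rw [h2] at h1
      rw [h1, hc]
      push_cast
      ring
    · intro v
      rw [hu, hu, hφ'2.trN]
      have h1 := p6_mul hφ v 0 d
      have h2 : ((v.1 + ((0 : ℕ) : ℤ) * M, v.2 + (d : ℤ) * N) : Pt) = (v.1, v.2 + N') := by
        ext
        · simp
        · show v.2 + (d : ℤ) * N = v.2 + N'
          rw [hd]; push_cast; ring
      rw [h2] at h1
      rw [h1, hd]
      push_cast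
      ring
  have huodd : ∀ v, u (-v) = -u v := by
    intro v
    rw [hu, hu, hφ'2.odd, hφ.odd]
    ring
  have hharm : ∀ v ∈ A', v ∉ frame M' N' L' → ∑ e, grad (nb A') u v e = 0 := by
    intro v hv hvf
    have h1 := hφ'2.harm v hv
    have h2 := hφ.harm v (by rw [hA'] at hv; exact hv.1)
    have h4 : ∀ e, grad (nb A') u v e = grad (nb A') φ' v e - grad (nb A) φ v e := by
      intro e
      unfold grad
      rw [hoff v hv hvf e, hu, hu]
      ring
    simp only [h4]
    rw [Finset.sum_sub_distrib, h1, h2, sub_zero]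
  have hL0 : max |((L' : ℤ), (0 : ℤ)).1| |((L' : ℤ), (0 : ℤ)).2| = (L' : ℤ) := by
    simp
  have hf0 : (((L' : ℤ), (0 : ℤ)) : Pt) ∈ frame M' N' L' := by
    refine ⟨0, 0, ?_⟩
    simp
  obtain ⟨v0, hv0F, hv0A, hv0⟩ := h4b M' N' L' A' hG' u (frame M' N' L') hper hharm
    ⟨_, hf0, hfr hf0, fun i j => p6_frame_tr hf0 i j⟩
  obtain ⟨i, j, hij⟩ := hv0F
  -- translate to the central square
  have hutr : ∀ (v : Pt) (i j : ℤ), u (v.1 + i * M', v.2 + j * N') = u v := by
    have hM : ∀ (w : Pt) (n : ℕ), u (w.1 + n * M', w.2) = u w := by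
      intro w n
      induction n with
      | zero => simp
      | succ n ih =>
        have h2 := hper.1 (w.1 + n * M', w.2)
        have h3 : (w.1 + ((n + 1 : ℕ) : ℤ) * M', w.2) = (w.1 + (n : ℤ) * M' + M', w.2) := by
          ext
          · push_cast; ring
          · rfl
        rw [h3]
        simp only at h2
        rw [h2, ih]
    have hN : ∀ (w : Pt) (n : ℕ), u (w.1, w.2 + n * N') = u w := by
      intro w n
      induction n with
      | zero => simp
      | succ n ih =>
        have h2 := hper.2 (w.1, w.2 + n * N')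
        have h3 : (w.1, w.2 + ((n + 1 : ℕ) : ℤ) * N') = (w.1, w.2 + (n : ℤ) * N' + N') := by
          ext
          · rfl
          · push_cast; ring
        rw [h3]
        simp only at h2
        rw [h2, ih]
    have hM' : ∀ (w : Pt) (i : ℤ), u (w.1 + i * M', w.2) = u w := by
      intro w i
      rcases Int.eq_nat_or_neg i with ⟨n, rfl | rfl⟩
      · exact hM w n
      · have := hM (w.1 + -(n : ℤ) * M', w.2) n
        simp only at this
        rw [← this]
        congr 1
        ext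
        · show w.1 + -(n : ℤ) * M' + n * M' = w.1
          ring
        · rfl
    have hN' : ∀ (w : Pt) (i : ℤ), u (w.1, w.2 + i * N') = u w := by
      intro w i
      rcases Int.eq_nat_or_neg i with ⟨n, rfl | rfl⟩
      · exact hN w n
      · have := hN (w.1, w.2 + -(n : ℤ) * N') n
        simp only at this
        rw [← this]
        congr 1
        ext
        · rfl
        · show w.2 + -(n : ℤ) * N' + n * N' = w.2
          ring
    intro v i j
    have := hN' (v.1 + i * M', v.2) j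
    simp only at this
    rw [this, hM']
  obtain ⟨v, hv⟩ : ∃ v : Pt, v = (v0.1 + -i * M', v0.2 + -j * N') := ⟨_, rfl⟩
  have huv : u v = u v0 := by rw [hv, hutr]
  have hvmax : max |v.1| |v.2| = (L' : ℤ) := by
    rw [← hij, hv]
    congr 2
    · show v0.1 + -i * M' = _
      ring
    · show v0.2 + -j * N' = _
      ring
  have hvfr : v ∈ frame M' N' L' := by
    refine ⟨0, 0, ?_⟩
    simpa using hvmax
  have hvA' : v ∈ A' := hfr hvfr
  have hvA : v ∈ A := by rw [hA'] at hvA'; exact hvA'.1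
  have hm : ∀ w ∈ A, |w.1| ≤ L' + 1 → |w.2| ≤ L' + 1 →
      |φ w| ≤ (|a| + |b|) * (L' + 1) + B := by
    intro w hw h1 h2
    have h4 := hB w hw
    have h5 : |(w.1 : ℝ)| ≤ L' + 1 := by exact_mod_cast h1
    have h6 : |(w.2 : ℝ)| ≤ L' + 1 := by exact_mod_cast h2
    have h7 : |a * w.1 + b * w.2| ≤ (|a| + |b|) * (L' + 1) := by
      refine (abs_add_le _ _).trans ?_
      rw [abs_mul, abs_mul, add_mul]
      exact add_le_add (mul_le_mul_of_nonneg_left h5 (abs_nonneg _))
        (mul_le_mul_of_nonneg_left h6 (abs_nonneg _))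
    have h8 : φ w = (φ w - (a * w.1 + b * w.2)) + (a * w.1 + b * w.2) := by ring
    rw [h8]
    refine (abs_add_le _ _).trans ?_
    linarith
  have hUb : u v ≤ 4 * ((|a| + |b|) * (L' + 1) + B) := by
    refine p6_bound h5c M N Lm M' N' L' A hG hS φ φ' hφ'.odd v hvmax ?_ _ (u v) (hu v).symm hm hvA
      ?_ (fun e => h3.1 v e) ?_
    · rw [← hA']
      exact hφ'2.harm v hvA'
    · intro w hw
      rw [← hA'] at hw
      rw [← hu, huv]
      exact hv0 w hw
    · intro e
      rw [← hA']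
      exact h3'.1 v e
  have hall : ∀ w ∈ A', u w ≤ 4 * ((|a| + |b|) * (L' + 1) + B) := by
    intro w hw
    have := hv0 w hw
    rw [← huv] at this
    linarith
  intro w hw
  rw [← hu, abs_le]
  constructor
  · have h1 := hall (-w) ((hG'.neg w).2 hw)
    rw [huodd] at h1
    linarith
  · exact hall w hw

end Pool.Agent.R196.PP
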